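import Pool.Agent.Lib.MP_4a593f_gt.BH.Fin.Stm

/-!
Closed Riemannian manifolds of even dimension `n` with `k`-positive curvature operator,
`k ≤ 6 (n - 3) / 5`.
-/

open scoped Manifold ContDiff

universe u

namespace Pool.Agent.Results.MP_4a593f_gt.ClosedKPositive

open BHS

/-- Let `M` be a nonempty compact smooth manifold without boundary of even dimension `n`, with a
smooth Riemannian metric whose curvature operator is `k`-positive at every point, where
`5 k + 18 ≤ 6 n`, that is `k ≤ 6 (n - 3) / 5`. If moreover all sectional curvatures are positive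
or `k < n`, then every closed form of odd degree on `M` is exact and `χ(M) > 0`. -/
theorem result {n : ℕ} {M : Type u} [TopologicalSpace M] [ChartedSpace (V n) M]
    [IsManifold (I n) ∞ M] [CompactSpace M] [T2Space M] [Nonempty M] (g : Metric n M) {k : ℕ}
    (hn : Even n) (hk : CurvKPos g k) (h : 5 * k + 18 ≤ 6 * n) (hs : SecPos g ∨ k < n) :
    (∀ p, p ≤ n → Odd p → closedForms n M p ≤ exactForms n M p ∧ betti n M p = 0) ∧
      0 < euler n M :=
  BHS.mainS1 hk hn h hs

end Pool.Agent.Results.MP_4a593f_gt.ClosedKPositive
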