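import Pool.Agent.Lib.MP_4a593f_gt.BH.Fin.Stm

/-!
Closed Riemannian manifolds with `(n-2)`-positive curvature operator.
-/

open scoped Manifold ContDiff

universe u

namespace Pool.Agent.Results.MP_4a593f_gt.ClosedNMinusTwo

open BHS

/-- Let `M` be a nonempty compact smooth manifold without boundary of dimension `n ≥ 3`, with a
smooth Riemannian metric whose curvature operator is `(n-2)`-positive at every point. Then every
closed `p`-form on `M` with `0 < p < n` is exact, and `χ(M) > 0` if `n` is even. -/
theorem result {n : ℕ} {M : Type u} [TopologicalSpace M] [ChartedSpace (V n) M]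
    [IsManifold (I n) ∞ M] [CompactSpace M] [T2Space M] [Nonempty M] (hn : 3 ≤ n)
    (g : Metric n M) (hk : CurvKPos g (n - 2)) :
    (∀ p, 0 < p → p < n → closedForms n M p ≤ exactForms n M p ∧ betti n M p = 0) ∧
      (Even n → 0 < euler n M) :=
  BHS.mainS2 hn hk

end Pool.Agent.Results.MP_4a593f_gt.ClosedNMinusTwo
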