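import Pool.Agent.Lib.MP_4a593f_gt.BH.Fin.Stm

/-!
Closed Riemannian manifolds of dimension six whose sectional curvatures at every point are
pinched by a factor below `31/4`.
-/

open scoped Manifold ContDiff

universe u

namespace Pool.Agent.Results.MP_4a593f_gt.ClosedPinchedSix

open BHS

/-- Let `M` be a nonempty compact smooth manifold without boundary of dimension 6, with a smooth
Riemannian metric, and suppose that at every point `x` all sectional curvatures lie in an interval
`[a x, b x]` with `4 b x < 31 a x` (so `0 < a x` and `b x < (31/4) a x`). Then every closed form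
of odd degree on `M` is exact (so `b_1 = b_3 = b_5 = 0`) and `χ(M) > 0`. -/
theorem result {M : Type u} [TopologicalSpace M] [ChartedSpace (V 6) M]
    [IsManifold (I 6) ∞ M] [CompactSpace M] [T2Space M] [Nonempty M] (g : Metric 6 M)
    {a b : M → ℝ} (h : SecBetween g a b) (hab : ∀ x, 4 * b x < 31 * a x) :
    (∀ p, p ≤ 6 → Odd p → closedForms 6 M p ≤ exactForms 6 M p ∧ betti 6 M p = 0) ∧
      0 < euler 6 M :=
  BHS.mainS3 h hab

end Pool.Agent.Results.MP_4a593f_gt.ClosedPinchedSix
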